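import Pool.Agent.W200.MR.Stm

/-! S18410, part EPS: few sign changes. -/

set_option autoImplicit false

open Finset Filter Topology

namespace Pool.Agent.W881.MR.EPS

open Pool.Agent.W200.MR

theorem eps_cases (s : ℕ → ℝ) (T L : ℕ → ℕ) (n : ℕ) : eps s T L n = 1 ∨ eps s T L n = -1 := by
  unfold eps
  split_ifs
  · exact Or.inr rfl
  · exact Or.inl rfl

theorem eps_neg {s : ℕ → ℝ} {T L : ℕ → ℕ} {n : ℕ} (h : eps s T L n = -1) :
    ∃ k : ℕ, L k ≤ n ∧ n < T (k + 1) ∧ (pw (s (k + 1)) n).re < 0 := by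
  by_contra hcon
  unfold eps at h
  rw [if_neg hcon] at h
  norm_num at h

theorem eps_pos {s : ℕ → ℝ} {T L : ℕ → ℕ} {n : ℕ} (h : eps s T L n = 1) (k : ℕ) (h1 : L k ≤ n)
    (h2 : n < T (k + 1)) : ¬ (pw (s (k + 1)) n).re < 0 := by
  intro h3
  unfold eps at h
  rw [if_pos ⟨k, h1, h2, h3⟩] at h
  norm_num at h

open Classical in
/-- the sign changes -/
noncomputable def SC (s : ℕ → ℝ) (N k : ℕ) : Finset ℕ :=
  (Icc 1 N).filter (fun n => ¬ ((pw (s (k + 1)) n).re < 0 ↔ (pw (s (k + 1)) (n + 1)).re < 0))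

open Classical in
noncomputable def BB (s : ℕ → ℝ) (T L : ℕ → ℕ) (N : ℕ) : Finset ℕ :=
  (Icc 1 N).filter (fun n => eps s T L n ≠ eps s T L (n + 1))

open Classical in
theorem sub (s : ℕ → ℝ) (T L : ℕ → ℕ) (N : ℕ) (K : Finset ℕ) (hK : ∀ k, L k ≤ N + 1 → k ∈ K) :
    BB s T L N ⊆ K.biUnion (fun k => SC s N k ∪ {T (k + 1) - 1, L k - 1}) := by
  intro n hn
  unfold BB at hn
  rw [mem_filter, mem_Icc] at hn
  obtain ⟨⟨hn1, hnN⟩, hne⟩ := hn
  rw [mem_biUnion]
  rcases eps_cases s T L n with h | h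
  · rcases eps_cases s T L (n + 1) with h' | h'
    · exact absurd (h.trans h'.symm) hne
    · obtain ⟨k, hk1, hk2, hk3⟩ := eps_neg h'
      refine ⟨k, hK k (by omega), ?_⟩
      rw [mem_union]
      by_cases hL : L k ≤ n
      · left
        unfold SC
        rw [mem_filter, mem_Icc]
        refine ⟨⟨hn1, hnN⟩, fun hiff => ?_⟩
        exact eps_pos h k hL (by omega) (hiff.2 hk3)
      · right
        simp only [mem_insert, mem_singleton]
        right
        omega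
  · obtain ⟨k, hk1, hk2, hk3⟩ := eps_neg h
    refine ⟨k, hK k (by omega), ?_⟩
    rw [mem_union]
    have h' : eps s T L (n + 1) = 1 := by
      rcases eps_cases s T L (n + 1) with h' | h'
      · exact h'
      · exact absurd (h.trans h'.symm) hne
    by_cases hT : n + 1 < T (k + 1)
    · left
      unfold SC
      rw [mem_filter, mem_Icc]
      refine ⟨⟨hn1, hnN⟩, fun hiff => ?_⟩
      exact eps_pos h' k (by omega) hT (hiff.1 hk3)
    · right
      simp only [mem_insert, mem_singleton]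
      left
      omega

theorem cardB (hE : S_EPa) (s : ℕ → ℝ) (T L : ℕ → ℕ) (hs : ∀ k : ℕ, (k : ℝ) + 1 ≤ s k)
    (hL : ∀ k : ℕ, (((k : ℝ) + 1) * s (k + 1)) ^ 4 ≤ L k) (N : ℕ) (M : ℝ) (hM : 1 ≤ M)
    (hM4 : M ^ 4 = N + 1) : ((BB s T L N).card : ℝ) ≤ 22 * M ^ 3 := by
  classical
  set K : Finset ℕ := (range ⌊M⌋₊).filter (fun k => L k ≤ N + 1) with hKdef
  have hkey : ∀ k, L k ≤ N + 1 → ((k : ℝ) + 1) * s (k + 1) ≤ M := by
    intro k hk
    have h1 : (((k : ℝ) + 1) * s (k + 1)) ^ 4 ≤ M ^ 4 := by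
      rw [hM4]
      refine (hL k).trans ?_
      exact_mod_cast hk
    exact le_of_pow_le_pow_left₀ (by norm_num) (by linarith) h1
  have hs1 : ∀ k : ℕ, (k : ℝ) + 2 ≤ s (k + 1) := by
    intro k
    have := hs (k + 1)
    push_cast at this
    linarith
  have hk1 : ∀ k, L k ≤ N + 1 → (k : ℝ) + 1 ≤ M := by
    intro k hk
    have h1 := hkey k hk
    have h2 := hs1 k
    have h3 : (0 : ℝ) ≤ k := Nat.cast_nonneg k
    nlinarith
  have hk2 : ∀ k, L k ≤ N + 1 → s (k + 1) ≤ M := by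
    intro k hk
    have h1 := hkey k hk
    have h2 := hs1 k
    have h3 : (0 : ℝ) ≤ k := Nat.cast_nonneg k
    nlinarith
  have hK : ∀ k, L k ≤ N + 1 → k ∈ K := by
    intro k hk
    rw [hKdef, mem_filter, mem_range]
    refine ⟨?_, hk⟩
    have h1 := hk1 k hk
    have h2 : k + 1 ≤ ⌊M⌋₊ := Nat.le_floor (by push_cast; exact h1)
    omega
  have hlog : Real.log ((N : ℝ) + 1) ≤ 4 * M := by
    rw [← hM4, Real.log_pow]
    have := Real.log_le_sub_one_of_pos (show (0 : ℝ) < M by linarith)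
    push_cast
    linarith
  have hlog0 : 0 ≤ Real.log ((N : ℝ) + 1) := Real.log_nonneg (by
    have : (0 : ℝ) ≤ N := Nat.cast_nonneg N
    linarith)
  have h1 := (Finset.card_le_card (sub s T L N K hK)).trans Finset.card_biUnion_le
  have h2 : ((BB s T L N).card : ℝ) ≤ ∑ k ∈ K,
      (((SC s N k ∪ {T (k + 1) - 1, L k - 1}).card : ℕ) : ℝ) := by
    exact_mod_cast h1
  refine h2.trans ?_
  have h3 : ∀ k ∈ K, (((SC s N k ∪ {T (k + 1) - 1, L k - 1}).card : ℕ) : ℝ) ≤
      16 * M ^ 2 + 6 := by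
    intro k hk
    rw [hKdef, mem_filter] at hk
    have e1 := Finset.card_union_le (SC s N k) {T (k + 1) - 1, L k - 1}
    have e2 : ({T (k + 1) - 1, L k - 1} : Finset ℕ).card ≤ 2 := Finset.card_le_two
    have e3 : (((SC s N k ∪ {T (k + 1) - 1, L k - 1}).card : ℕ) : ℝ) ≤
        ((SC s N k).card : ℝ) + 2 := by
      exact_mod_cast e1.trans (by omega)
    have hk0 : (0 : ℝ) ≤ k := Nat.cast_nonneg k
    have e4 := hE (s (k + 1)) N (by have := hs1 k; linarith)
    have e5 : ((SC s N k).card : ℝ) ≤ 4 * (s (k + 1) * Real.log (N + 1) + 1) := by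
      unfold SC
      convert e4 using 3
    have e6 : s (k + 1) * Real.log (N + 1) ≤ M * (4 * M) :=
      mul_le_mul (hk2 k hk.2) hlog hlog0 (by linarith)
    nlinarith
  refine (Finset.sum_le_sum h3).trans ?_
  rw [Finset.sum_const, nsmul_eq_mul]
  have h4 : (K.card : ℝ) ≤ M := by
    have e1 : K.card ≤ ⌊M⌋₊ := (Finset.card_filter_le _ _).trans (by rw [card_range])
    have e2 : ((⌊M⌋₊ : ℕ) : ℝ) ≤ M := Nat.floor_le (by linarith)
    exact (show (K.card : ℝ) ≤ ((⌊M⌋₊ : ℕ) : ℝ) by exact_mod_cast e1).trans e2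
  have h5 : (K.card : ℝ) * (16 * M ^ 2 + 6) ≤ M * (16 * M ^ 2 + 6) :=
    mul_le_mul_of_nonneg_right h4 (by positivity)
  have h6 : M ≤ M ^ 3 := by nlinarith [sq_nonneg (M - 1), sq_nonneg M]
  nlinarith

theorem sumE (s : ℕ → ℝ) (T L : ℕ → ℕ) (N : ℕ) :
    ∑ n ∈ Icc 1 N, eps s T L n * eps s T L (n + 1) = N - 2 * ((BB s T L N).card : ℝ) := by
  classical
  have h1 : ∀ n ∈ Icc 1 N, eps s T L n * eps s T L (n + 1) =
      1 - 2 * (if eps s T L n ≠ eps s T L (n + 1) then (1 : ℝ) else 0) := by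
    intro n _
    rcases eps_cases s T L n with h | h <;> rcases eps_cases s T L (n + 1) with h' | h' <;>
      rw [h, h'] <;> norm_num
  rw [Finset.sum_congr rfl h1, Finset.sum_sub_distrib, ← Finset.mul_sum, Finset.sum_boole]
  simp only [sum_const, Nat.card_Icc, add_tsub_cancel_right, nsmul_eq_mul, mul_one]
  unfold BB
  congr 3

theorem t_EPS : S_EPa → S_EPS := by
  intro hE s T L hs hTL hL
  rw [tendsto_iff_norm_sub_tendsto_zero]
  have hM : Tendsto (fun N : ℕ => Real.sqrt (Real.sqrt ((N : ℝ) + 1))) atTop atTop :=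
    (Real.tendsto_sqrt_atTop.comp Real.tendsto_sqrt_atTop).comp
      (tendsto_atTop_add_const_right _ _ tendsto_natCast_atTop_atTop)
  have hlim : Tendsto (fun N : ℕ => 88 / Real.sqrt (Real.sqrt ((N : ℝ) + 1))) atTop (𝓝 0) :=
    hM.const_div_atTop 88
  refine squeeze_zero' (Eventually.of_forall (fun N => norm_nonneg _)) ?_ hlim
  filter_upwards [eventually_ge_atTop 1] with N hN
  set M := Real.sqrt (Real.sqrt ((N : ℝ) + 1)) with hMdef
  have hN0 : (1 : ℝ) ≤ N := by exact_mod_cast hN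
  have hM4 : M ^ 4 = N + 1 := by
    have e : M ^ 4 = (M ^ 2) ^ 2 := by ring
    rw [e, hMdef, Real.sq_sqrt (Real.sqrt_nonneg _), Real.sq_sqrt (by linarith)]
  have hM1 : 1 ≤ M := by
    rw [hMdef, Real.one_le_sqrt, Real.one_le_sqrt]
    linarith
  have hB := cardB hE s T L hs hL N M hM1 hM4
  rw [sumE]
  have e1 : 1 / (N : ℝ) * ((N : ℝ) - 2 * ((BB s T L N).card : ℝ)) - 1 =
      -(2 * ((BB s T L N).card : ℝ) / N) := by
    field_simp
    ring
  rw [e1, norm_neg, Real.norm_of_nonneg (by positivity)]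
  rw [div_le_div_iff₀ (by linarith) (by linarith)]
  have h2 : M ^ 4 ≤ 2 * N := by rw [hM4]; linarith
  calc 2 * ((BB s T L N).card : ℝ) * M ≤ 2 * (22 * M ^ 3) * M := by
        apply mul_le_mul_of_nonneg_right _ (by linarith)
        linarith
    _ = 44 * M ^ 4 := by ring
    _ ≤ 44 * (2 * N) := by linarith
    _ = 88 * N := by ring

end Pool.Agent.W881.MR.EPS
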